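import Pool.Agent.K1H53.BI.Plan5
import Pool.Agent.K1H39.BI.Gen

/-! Comparison with superharmonic functions in the lattice ball, and the bound by the Green
function of the lattice (project BI, part 3, pieces POT and GU). -/

set_option autoImplicit false

open Finset Pool.Agent.K1H53.BI

namespace Pool.Agent.K1H68.BI5

theorem av_sub (f g : V → ℝ) (x : V) : av (fun y => f y - g y) x = av f x - av g x := by
  unfold av
  rw [Finset.sum_sub_distrib, sub_div]

theorem av_sum {ι : Type} (s : Finset ι) (g : ι → V → ℝ) (x : V) :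
    av (fun y => ∑ i ∈ s, g i y) x = ∑ i ∈ s, av (g i) x := by
  unfold av
  rw [Finset.sum_comm, Finset.sum_div]

theorem av_mul_const (f : V → ℝ) (c : ℝ) (x : V) : av (fun y => f y * c) x = av f x * c := by
  unfold av
  rw [← Finset.sum_mul]
  ring

theorem av_div_const (f : V → ℝ) (c : ℝ) (x : V) : av (fun y => f y / c) x = av f x / c := by
  unfold av
  rw [← Finset.sum_div]
  ring

theorem av_const (c : ℝ) (x : V) : av (fun _ => c) x = c := by
  unfold av
  rw [Finset.sum_const, Finset.card_univ, Fintype.card_prod, Fintype.card_fin, Fintype.card_bool,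
    nsmul_eq_mul]
  push_cast
  ring

theorem av_nsq (x : V) : av (fun y => (nsq y : ℝ)) x = nsq x + 1 := by
  unfold av
  have h := Pool.Agent.K1H39.BI.sum_nsq_dir x
  have h2 : (∑ e : Fin 3 × Bool, (nsq (x + dir e) : ℝ)) = 6 * nsq x + 6 := by
    exact_mod_cast h
  rw [h2]
  ring

theorem av_shift (f : V → ℝ) (y x : V) : av (fun w => f (w - y)) x = av f (x - y) := by
  unfold av
  congr 1
  refine Finset.sum_congr rfl fun e _ => ?_
  rw [sub_add_eq_add_sub]

theorem t_POT : S_POT := by
  intro hM R G hG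
  have main : ∀ (ρ f : V → ℝ), (∀ y ∈ BR R, ρ y ≤ f y - av f y) →
      (∀ x, R ^ 2 < nsq x → nsq x ≤ (R + 1) ^ 2 → 0 ≤ f x) →
      ∀ x ∈ BR R, ∑ y ∈ BR R, G x y * ρ y ≤ f x := by
    intro ρ f h1 h2 x hx
    have key := hM (BR R) (fun w => f w - ∑ y ∈ BR R, G w y * ρ y) ?_ ?_ x hx
    · linarith
    · intro w hw
      rw [av_sub, av_sum]
      have h3 : ∑ y ∈ BR R, av (fun w => G w y * ρ y) w =
          ∑ y ∈ BR R, G w y * ρ y - ρ w := by
        have h4 : ∀ y ∈ BR R, av (fun w => G w y * ρ y) w =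
            G w y * ρ y - if w = y then ρ y else 0 := by
          intro y hy
          rw [av_mul_const, hG.eq w y (mem_BR.1 hw) (mem_BR.1 hy)]
          split_ifs <;> ring
        rw [Finset.sum_congr rfl h4, Finset.sum_sub_distrib, Finset.sum_ite_eq, if_pos hw]
      rw [h3]
      have := h1 w hw
      linarith
    · intro w hw e he
      have h3 : R ^ 2 < nsq (w + dir e) := by
        by_contra h
        exact he (mem_BR.2 (not_lt.1 h))
      have h4 : ∑ y ∈ BR R, G (w + dir e) y * ρ y = 0 :=
        Finset.sum_eq_zero fun y _ => by rw [hG.out _ y h3, zero_mul]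
      rw [h4, sub_zero]
      exact h2 _ h3 (Pool.Agent.K1H39.BI.nsq_dir_le (mem_BR.1 hw) e)
  refine ⟨main, ?_⟩
  intro x hx
  have h := main (fun _ => 1) (fun y => ((R : ℝ) + 1) ^ 2 - nsq y) ?_ ?_ x hx
  · simpa using h
  · intro y _
    rw [av_sub, av_const, av_nsq]
    linarith
  · intro y _ h2
    have : (nsq y : ℝ) ≤ ((R : ℝ) + 1) ^ 2 := by exact_mod_cast h2
    linarith

theorem qf_nonneg (x : V) : 0 ≤ qf x := by
  unfold qf
  positivity

theorem t_GU : S_GU := by
  intro hP hQ
  obtain ⟨-, -, hl, hl0, -⟩ := hQ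
  refine ⟨1 / lam 0, by positivity, fun R G hG x y => ?_⟩
  have hnn : 0 ≤ 1 / lam 0 / Real.sqrt (nsq (x - y) + 1) := by positivity
  by_cases hx : nsq x ≤ R ^ 2
  · by_cases hy : nsq y ≤ R ^ 2
    · have h := (hP R G hG).1 (fun w => if w = y then 1 else 0) (fun w => qf (w - y) / lam 0)
        ?_ ?_ x (mem_BR.2 hx)
      · simp only [mul_ite, mul_one, mul_zero] at h
        rw [Finset.sum_ite_eq', if_pos (mem_BR.2 hy)] at h
        refine h.trans ?_
        unfold qf
        rw [div_right_comm]
        have h1 : Real.sqrt ((nsq (x - y) : ℝ) + 1) ≤ Real.sqrt ((nsq (x - y) : ℝ) + 20) :=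
          Real.sqrt_le_sqrt (by linarith)
        have h2 : 0 < Real.sqrt ((nsq (x - y) : ℝ) + 1) := Real.sqrt_pos.2 (by positivity)
        gcongr
      · intro w _
        rw [av_div_const, av_shift]
        have h1 : qf (w - y) / lam 0 - av qf (w - y) / lam 0 = lam (w - y) / lam 0 := by
          rw [← sub_div]
          rfl
        rw [h1]
        by_cases hwy : w = y
        · rw [if_pos hwy, hwy, sub_self, div_self hl0.ne']
        · rw [if_neg hwy]
          exact div_nonneg (hl _) hl0.le
      · intro w _ _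
        exact div_nonneg (qf_nonneg _) hl0.le
    · rw [hG.symm, hG.out y x (not_le.1 hy)]
      exact hnn
  · rw [hG.out x y (not_le.1 hx)]
    exact hnn

end Pool.Agent.K1H68.BI5

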